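import Mathlib
import Pool.Agent.Lib.MP_090f02_an.Comb
import Pool.Agent.Lib.MP_090f02_an.Reduce
import Pool.Agent.Lib.MP_090f02_an.Interp

set_option autoImplicit false

/-! Interpolation sets separate inverse limits of `(k + 1)`-step nilsystems from inverse limits of
`k`-step nilsystems, for every `k`. -/

namespace Pool.Agent.Results.MP_090f02_an.Separation

open Filter Topology ContDiff Manifold Pool.Agent.Lib.MP_090f02_an

/-- `(X, T)` is, up to isomorphism, a `k`-step nilsystem: `X` is homeomorphic to `G ⧸ Γ` with `G` a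
(finite-dimensional real, Hausdorff, second countable, smooth) Lie group that is nilpotent of class
at most `k` and `Γ` a discrete cocompact subgroup, and the homeomorphism turns `T` into the left
translation by an element `g` of `G`. -/
def IsNilsystem (k : ℕ) (X : Type) [TopologicalSpace X] (T : X → X) : Prop :=
  ∃ (E : Type) (_ : NormedAddCommGroup E) (_ : NormedSpace ℝ E) (_ : FiniteDimensional ℝ E)
    (G : Type) (_ : Group G) (_ : TopologicalSpace G) (_ : ChartedSpace E G)
    (_ : LieGroup 𝓘(ℝ, E) ∞ G) (_ : T2Space G) (_ : SecondCountableTopology G)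
    (Γ : Subgroup G) (g : G) (φ : (G ⧸ Γ) ≃ₜ X),
    (⊤ : Subgroup G).lowerCentralSeries k = ⊥ ∧ DiscreteTopology Γ ∧ CompactSpace (G ⧸ Γ) ∧
      ∀ y : G ⧸ Γ, T (φ y) = φ (g • y)

/-- `(X, T)` is, up to isomorphism, the inverse limit of a sequence of `k`-step nilsystems
`(Y i, S i)` with factor maps `π i : Y (i + 1) → Y i`. -/
def IsInverseLimit (k : ℕ) (X : Type) [TopologicalSpace X] (T : X → X) : Prop :=
  ∃ (Y : ℕ → Type) (_ : ∀ i, TopologicalSpace (Y i)) (S : ∀ i, Y i → Y i)
    (π : ∀ i, Y (i + 1) → Y i) (φ : X ≃ₜ {y : ∀ i, Y i // ∀ i, π i (y (i + 1)) = y i}),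
    (∀ i, IsNilsystem k (Y i) (S i)) ∧
    (∀ i, Continuous (π i) ∧ Function.Surjective (π i) ∧
      ∀ y, π i (S (i + 1) y) = S i (π i y)) ∧
    ∀ x i, (φ (T x)).1 i = S i ((φ x).1 i)

/-- `S` is an interpolation set for the class of inverse limits of `k`-step nilsystems. -/
def IsInterpolationSet (k : ℕ) (S : Set ℕ) : Prop :=
  ∀ f : S → ℂ, (∃ C : ℝ, ∀ n, ‖f n‖ ≤ C) →
    ∃ (X : Type) (_ : MetricSpace X) (_ : CompactSpace X) (T : X → X) (x : X) (F : C(X, ℂ)),
      Continuous T ∧ IsInverseLimit k X T ∧ ∀ n : S, F (T^[(n : ℕ)] x) = f n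

theorem nhds_limit {Y : ℕ → Type} [∀ i, TopologicalSpace (Y i)] (π : ∀ i, Y (i + 1) → Y i)
    (hπ : ∀ i, Continuous (π i)) (z : {y : ∀ i, Y i // ∀ i, π i (y (i + 1)) = y i})
    (V : Set {y : ∀ i, Y i // ∀ i, π i (y (i + 1)) = y i}) (hV : V ∈ 𝓝 z) :
    ∃ i, ∃ U ∈ 𝓝 (z.1 i), ∀ z' : {y : ∀ i, Y i // ∀ i, π i (y (i + 1)) = y i},
      z'.1 i ∈ U → z' ∈ V := by
  obtain ⟨W, hW, hWV⟩ := (mem_nhds_induced _ z V).1 hV
  rw [nhds_pi, Filter.mem_pi] at hW
  obtain ⟨I, hI, U, hU, hUW⟩ := hW
  have key : ∀ i n, i ≤ n → ∀ U ∈ 𝓝 (z.1 i), ∃ U' ∈ 𝓝 (z.1 n),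
      ∀ z' : {y : ∀ i, Y i // ∀ i, π i (y (i + 1)) = y i}, z'.1 n ∈ U' → z'.1 i ∈ U := by
    intro i n hin U hU
    induction n, hin using Nat.le_induction with
    | base => exact ⟨U, hU, fun _ h => h⟩
    | succ n _ ih =>
      obtain ⟨U', hU', h⟩ := ih
      refine ⟨π n ⁻¹' U', ?_, fun z' hz' => h z' ?_⟩
      · apply (hπ n).continuousAt
        rw [z.2 n]
        exact hU'
      · rw [← z'.2 n]
        exact hz'
  obtain ⟨n, hn⟩ := hI.bddAbove
  have key2 : ∀ i : I, ∃ U' ∈ 𝓝 (z.1 n),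
      ∀ z' : {y : ∀ i, Y i // ∀ i, π i (y (i + 1)) = y i}, z'.1 n ∈ U' → z'.1 i ∈ U i :=
    fun i => key i n (hn i.2) (U i) (hU i)
  choose U' hU' hU'' using key2
  have : Finite I := hI
  refine ⟨n, ⋂ i, U' i, Filter.iInter_mem.2 hU', fun z' hz' => hWV (hUW ?_)⟩
  intro i hi
  exact hU'' ⟨i, hi⟩ z' (Set.mem_iInter.1 hz' ⟨i, hi⟩)

theorem constant_limit {k : ℕ} {X : Type} [TopologicalSpace X] {T : X → X}
    (h : IsNilsystem k X T) : IsInverseLimit k X T := by
  refine ⟨fun _ => X, fun _ => inferInstance, fun _ => T, fun _ x => x, ?_, fun _ => h,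
    fun _ => ⟨continuous_id, Function.surjective_id, fun _ => rfl⟩, ?_⟩
  · exact
      { toFun := fun x => ⟨fun _ => x, fun _ => rfl⟩
        invFun := fun y => y.1 0
        left_inv := fun x => rfl
        right_inv := by
          intro y
          apply Subtype.ext
          funext i
          induction i with
          | zero => rfl
          | succ i ih => exact ih.trans (y.2 i).symm
        continuous_toFun := by fun_prop
        continuous_invFun := (continuous_apply 0).comp continuous_subtype_val }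
  · intro x i
    rfl

theorem result (k : ℕ) : ∃ S : Set ℕ, IsInterpolationSet (k + 1) S ∧ ¬ IsInterpolationSet k S := by
  classical
  obtain ⟨𝓛, hcomb, hne, _, h2, hind⟩ := exists_family k 0
  set B := k + 3 with hB
  have hB2 : 2 ≤ B := by omega
  set S : Set ℕ := {n | n = 1 ∨ ∃ L ∈ 𝓛, n = 1 + hgt B L} with hS
  have h1S : 1 ∈ S := Or.inl rfl
  have hLS : ∀ L ∈ 𝓛, 1 + hgt B L ∈ S := fun L hL => Or.inr ⟨L, hL, rfl⟩
  refine ⟨S, ?_, ?_⟩
  · intro f hf
    obtain ⟨C, hC⟩ := hf
    set f' : Option 𝓛 → ℂ := fun j => j.elim (f ⟨1, h1S⟩) (fun L => f ⟨_, hLS L.1 L.2⟩) with hf'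
    obtain ⟨p, F, hF0, hF1⟩ := interp (le_refl (k + 3)) 𝓛 hne h2 hind f' (max C 1)
      (lt_of_lt_of_le one_pos (le_max_right _ _)) (by
        intro j
        cases j with
        | none => exact (hC _).trans (le_max_left _ _)
        | some L => exact (hC _).trans (le_max_left _ _))
    let X : Type := NG (k + 1) ⧸ NG.lat (k + 1)
    let g : NG (k + 1) := NG.mk 1 p
    have hmet : TopologicalSpace.MetrizableSpace X := by
      have : T2Space X := inferInstanceAs (T2Space (NG (k + 1) ⧸ NG.lat (k + 1)))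
      have : CompactSpace X := inferInstanceAs (CompactSpace (NG (k + 1) ⧸ NG.lat (k + 1)))
      have : SecondCountableTopology X :=
        inferInstanceAs (SecondCountableTopology (NG (k + 1) ⧸ NG.lat (k + 1)))
      infer_instance
    have hiter : ∀ (n : ℕ) (x : X), (fun x : X => g • x)^[n] x = g ^ n • x := by
      intro n x
      rw [smul_iterate]
    refine ⟨X, TopologicalSpace.metrizableSpaceMetric X,
      inferInstanceAs (CompactSpace (NG (k + 1) ⧸ NG.lat (k + 1))), fun x => g • x,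
      ((g⁻¹ : NG (k + 1)) : NG (k + 1) ⧸ NG.lat (k + 1)), F, ?_, ?_, ?_⟩
    · exact continuous_const_smul g
    · apply constant_limit
      refine ⟨VE (k + 1), inferInstance, inferInstance, inferInstance, NG (k + 1), inferInstance,
        inferInstance, inferInstance, inferInstance, inferInstance, inferInstance, NG.lat (k + 1),
        g, Homeomorph.refl _, NG.lcs_eq_bot (by omega), inferInstance, inferInstance, ?_⟩
      intro y
      rfl
    · rintro ⟨n, hn⟩
      have horb : ∀ h : ℕ, (fun x : X => g • x)^[1 + h]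
          ((g⁻¹ : NG (k + 1)) : NG (k + 1) ⧸ NG.lat (k + 1)) =
          ((g ^ h : NG (k + 1)) : NG (k + 1) ⧸ NG.lat (k + 1)) := by
        intro h
        rw [hiter]
        change ((g ^ (1 + h) * g⁻¹ : NG (k + 1)) : NG (k + 1) ⧸ NG.lat (k + 1)) = _
        congr 1
        rw [add_comm 1 h, pow_succ, mul_inv_cancel_right]
      rcases hn with rfl | ⟨L, hL, rfl⟩
      · have := horb 0
        rw [add_zero, pow_zero] at this
        simp only
        rw [this]
        exact hF0
      · simp only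
        rw [horb]
        exact hF1 ⟨L, hL⟩
  · intro hint
    obtain ⟨X, _, _, T, x, F, hT, hlim, hF⟩ := hint (fun n => if (n : ℕ) = 1 then 1 else 0)
      ⟨1, fun n => by split_ifs <;> simp⟩
    obtain ⟨Y, _, R, π, φ, hnil, hπ, hφ⟩ := hlim
    have hF1 : F (T x) = 1 := by
      have := hF ⟨1, h1S⟩
      simpa using this
    have hFL : ∀ L ∈ 𝓛, F (T^[hgt B L] (T x)) = 0 := by
      intro L hL
      have h3 := hF ⟨_, hLS L hL⟩
      have hpos : 0 < hgt B L := by
        rw [hgt]
        exact Finset.sum_pos (fun v _ => Nat.pow_pos (by norm_num)) (hne L hL)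
      simp only at h3
      rw [if_neg (by omega), add_comm, Function.iterate_succ_apply] at h3
      exact h3
    set x' := T x with hx'
    set V : Set X := {z | F z ≠ 0} with hV
    have hVn : V ∈ 𝓝 x' := by
      apply IsOpen.mem_nhds
      · exact isOpen_ne_fun F.continuous continuous_const
      · rw [hV, Set.mem_ofPred_eq, hF1]
        exact one_ne_zero
    have hVn' : φ.symm ⁻¹' V ∈ 𝓝 (φ x') := by
      apply φ.symm.continuous.continuousAt
      rw [φ.symm_apply_apply]
      exact hVn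
    obtain ⟨i, U, hU, hUV⟩ := nhds_limit π (fun i => (hπ i).1) (φ x') _ hVn'
    have hiterφ : ∀ n : ℕ, (φ (T^[n] x')).1 i = (R i)^[n] ((φ x').1 i) := by
      intro n
      induction n with
      | zero => rfl
      | succ n ih => rw [Function.iterate_succ_apply', Function.iterate_succ_apply', hφ, ih]
    obtain ⟨E, _, _, _, G, _, _, _, _, _, _, Γ, g, ψ, hk, hΓ, hc, hψ⟩ := hnil i
    have hG : IsTopologicalGroup G := topologicalGroup_of_lieGroup 𝓘(ℝ, E) ∞
    have : ProperSpace E := FiniteDimensional.proper_real E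
    have : LocallyCompactSpace G := ChartedSpace.locallyCompactSpace E G
    have hVψ : ψ ⁻¹' U ∈ 𝓝 (ψ.symm ((φ x').1 i)) := by
      apply ψ.continuous.continuousAt
      rw [ψ.apply_symm_apply]
      exact hU
    obtain ⟨L, hL, hLV⟩ := nil_rec hk Γ 𝓛 hcomb (fun v => 2 ^ (B ^ v)) g
      (ψ.symm ((φ x').1 i)) _ hVψ
    have hiterψ : ∀ (n : ℕ) (y : G ⧸ Γ), (R i)^[n] (ψ y) = ψ (g ^ n • y) := by
      intro n y
      induction n with
      | zero => simp
      | succ n ih =>
        rw [Function.iterate_succ_apply', ih, hψ, smul_smul, pow_succ']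
    have h5 : (φ (T^[hgt B L] x')).1 i ∈ U := by
      rw [hiterφ, ← ψ.apply_symm_apply ((φ x').1 i), hiterψ]
      exact hLV
    have h6 := hUV _ h5
    rw [Set.mem_preimage, φ.symm_apply_apply] at h6
    exact h6 (hFL L hL)

end Pool.Agent.Results.MP_090f02_an.Separation
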